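import Pool.Agent.H61.TX.Planar

/-!
# Convex bodies in 3-space with nested chords are verified by two X-rays
-/

set_option autoImplicit false

open MeasureTheory Metric Set
open scoped RealInnerProductSpace ENNReal

namespace Pool.Agent.H61.TX

/-- Euclidean 3-space. -/
abbrev E3 := EuclideanSpace ℝ (Fin 3)

/-- A convex body: a compact convex set with nonempty interior. -/
def IsConvexBody (K : Set E3) : Prop :=
  Convex ℝ K ∧ IsCompact K ∧ (interior K).Nonempty

/-- The X-ray of `K` in the direction `u`: the function on the plane orthogonal to `u` whose value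
at `x` is the length of the intersection of `K` with the line through `x` parallel to `u`. -/
noncomputable def xray (u : sphere (0 : E3) 1) (K : Set E3) : (ℝ ∙ (u : E3))ᗮ → ℝ≥0∞ :=
  fun x => volume {t : ℝ | (x : E3) + t • (u : E3) ∈ K}

/-- `K` is verified by its X-rays in the two directions `u`, `v`: no other convex body has the
same two X-rays. -/
def Verifies (u v : sphere (0 : E3) 1) (K : Set E3) : Prop :=
  ∀ K' : Set E3, IsConvexBody K' → xray u K' = xray u K → xray v K' = xray v K → K' = K

/-- The chord of `K` through `x` in the direction `u`, with its parameter. -/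
def chord (K : Set E3) (u x : E3) : Set ℝ := {t | x + t • u ∈ K}

/-- The chords in the direction `u` through points which differ by a multiple of `v` are
comparable. -/
def Nested (K : Set E3) (u v : E3) : Prop :=
  ∀ (x : E3) (s : ℝ), chord K u x ⊆ chord K u (x + s • v) ∨ chord K u (x + s • v) ⊆ chord K u x

lemma xray_line {u : sphere (0 : E3) 1} {K K' : Set E3} (h : xray u K' = xray u K) (y : E3) :
    volume (chord K' (u : E3) y) = volume (chord K (u : E3) y) := by
  obtain ⟨p, hp, q, hq, rfl⟩ : ∃ p ∈ (ℝ ∙ (u : E3))ᗮ, ∃ q ∈ (ℝ ∙ (u : E3)), p + q = y := by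
    obtain ⟨q, hq, p, hp, h⟩ := Submodule.exists_add_mem_mem_orthogonal (K := ℝ ∙ (u : E3)) y
    exact ⟨p, hp, q, hq, by rw [h, add_comm]⟩
  obtain ⟨c, rfl⟩ := Submodule.mem_span_singleton.1 hq
  have key : ∀ L : Set E3, volume (chord L (u : E3) (p + c • (u : E3))) =
      xray u L ⟨p, hp⟩ := by
    intro L
    have : chord L (u : E3) (p + c • (u : E3)) =
        (fun t => c + t) ⁻¹' {t : ℝ | p + t • (u : E3) ∈ L} := by
      ext t
      simp only [chord, mem_ofPred_eq, mem_preimage, add_smul, add_assoc]
    rw [this, measure_preimage_add]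
    rfl
  rw [key, key, h]

/-- the plane through `x` parallel to `u` and `v` -/
def pl (x u v : E3) (p : ℝ × ℝ) : E3 := x + p.1 • v + p.2 • u

lemma continuous_pl (x u v : E3) : Continuous (pl x u v) := by
  unfold pl; fun_prop

lemma compact_pl {u v : E3} (huv : LinearIndependent ℝ ![u, v]) {K : Set E3} (hK : IsCompact K)
    (x : E3) : IsCompact (pl x u v ⁻¹' K) := by
  refine Metric.isCompact_of_isClosed_isBounded (hK.isClosed.preimage (continuous_pl x u v)) ?_
  set f : ℝ × ℝ →ₗ[ℝ] E3 := (LinearMap.toSpanSingleton ℝ E3 v).coprod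
    (LinearMap.toSpanSingleton ℝ E3 u) with hf
  have hker : LinearMap.ker f = ⊥ := by
    rw [LinearMap.ker_eq_bot']
    rintro ⟨a, b⟩ h
    have h' : b • u + a • v = 0 := by
      rw [← h, hf]; simp [add_comm]
    have := (LinearIndependent.pair_iff.1 huv) b a h'
    simp [this.1, this.2]
  obtain ⟨C, hC, hanti⟩ := LinearMap.exists_antilipschitzWith f hker
  have hb : Bornology.IsBounded ((fun y => -x + y) '' K) := by
    exact (hK.image (by fun_prop)).isBounded
  refine (hanti.isBounded_preimage hb).subset ?_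
  intro p hp
  refine ⟨pl x u v p, hp, ?_⟩
  simp [pl, hf, add_assoc]

lemma convex_pl {u v : E3} {K : Set E3} (hK : Convex ℝ K) (x : E3) :
    Convex ℝ (pl x u v ⁻¹' K) := by
  intro p hp q hq a b ha hb hab
  have := hK hp hq ha hb hab
  have e : pl x u v (a • p + b • q) = a • pl x u v p + b • pl x u v q := by
    simp only [pl, Prod.fst_add, Prod.snd_add, Prod.smul_fst, Prod.smul_snd, smul_eq_mul, add_smul,
      mul_smul, smul_add]
    have hx : x = a • x + b • x := by rw [← add_smul, hab, one_smul]
    nth_rewrite 1 [hx]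
    abel
  rw [mem_preimage, e]
  exact this

theorem main {u v : sphere (0 : E3) 1} (huv : LinearIndependent ℝ ![(u : E3), (v : E3)])
    {K : Set E3} (hK : IsConvexBody K) (hn : Nested K (u : E3) (v : E3)) : Verifies u v K := by
  intro K' hK' hu hv
  -- first inclusion
  have h1 : interior K' ⊆ K := by
    intro x hx
    have hpl : interior (pl x u v ⁻¹' K') ⊆ pl x u v ⁻¹' K := by
      refine planar (convex_pl hK.1 x) (compact_pl huv hK.2.1 x)
        (hK'.2.1.isClosed.preimage (continuous_pl x u v)) ?_ ?_ ?_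
      · intro s
        exact xray_line hu (x + s • (v : E3))
      · intro t
        have e : ∀ L : Set E3, row (pl x u v ⁻¹' L) t = chord L (v : E3) (x + t • (u : E3)) := by
          intro L
          ext s
          simp only [row, chord, pl, mem_ofPred_eq, mem_preimage]
          rw [add_right_comm]
        rw [e, e]
        exact xray_line hv (x + t • (u : E3))
      · intro s s'
        have := hn (x + s • (v : E3)) (s' - s)
        have e : x + s • (v : E3) + (s' - s) • (v : E3) = x + s' • (v : E3) := by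
          rw [sub_smul]; abel
        rw [e] at this
        exact this
    have h0 : (0 : ℝ × ℝ) ∈ interior (pl x u v ⁻¹' K') := by
      refine mem_interior_iff_mem_nhds.2 ((continuous_pl x u v).continuousAt.preimage_mem_nhds ?_)
      have : pl x u v 0 = x := by simp [pl]
      rw [this]
      exact mem_interior_iff_mem_nhds.1 hx
    have := hpl h0
    simpa [pl] using this
  have h2 : K' ⊆ K := by
    have e := hK'.1.closure_interior_eq_closure_of_nonempty_interior hK'.2.2
    rw [hK'.2.1.isClosed.closure_eq] at e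
    rw [← e]
    exact closure_minimal h1 hK.2.1.isClosed
  -- second inclusion
  have h3 : interior K ⊆ K' := by
    intro x hx
    by_contra hxn
    have hsub : chord K' (u : E3) x ⊆ chord K (u : E3) x := fun t ht => h2 ht
    have hc : Continuous fun t : ℝ => x + t • (u : E3) := by fun_prop
    have hcl : IsClosed (chord K' (u : E3) x) := hK'.2.1.isClosed.preimage hc
    have hfin : volume (chord K' (u : E3) x) ≠ ⊤ := by
      have hcomp : IsCompact (chord K' (u : E3) x) := by
        have hne : (u : E3) ≠ 0 := by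
          intro h
          have := u.2
          rw [h] at this
          simp at this
        refine Metric.isCompact_of_isClosed_isBounded hcl ?_
        obtain ⟨R, hR⟩ := (hK'.2.1.isBounded).exists_norm_le
        refine (Metric.isBounded_closedBall (x := (0 : ℝ)) (r := R + ‖x‖)).subset ?_
        intro t ht
        have h1 : ‖x + t • (u : E3)‖ ≤ R := hR _ ht
        have h2 : ‖(u : E3)‖ = 1 := by simp
        have h3 : ‖t • (u : E3)‖ = |t| := by rw [norm_smul, h2, mul_one, Real.norm_eq_abs]
        have h4 : ‖t • (u : E3)‖ ≤ ‖x + t • (u : E3)‖ + ‖x‖ := by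
          have := norm_sub_le (x + t • (u : E3)) x
          simpa using this
        rw [mem_closedBall, dist_zero_right, Real.norm_eq_abs]
        linarith
      exact hcomp.measure_lt_top.ne
    have hz : volume (chord K (u : E3) x \ chord K' (u : E3) x) = 0 := by
      rw [measure_sdiff hsub hcl.measurableSet.nullMeasurableSet hfin, xray_line hu x, tsub_self]
    have hopen : IsOpen ((fun t : ℝ => x + t • (u : E3)) ⁻¹' (interior K ∩ K'ᶜ)) :=
      (isOpen_interior.inter hK'.2.1.isClosed.isOpen_compl).preimage hc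
    have hmem : (0 : ℝ) ∈ (fun t : ℝ => x + t • (u : E3)) ⁻¹' (interior K ∩ K'ᶜ) := by
      simp only [mem_preimage, zero_smul, add_zero]
      exact ⟨hx, hxn⟩
    have hpos := hopen.measure_pos volume ⟨0, hmem⟩
    have hle : volume ((fun t : ℝ => x + t • (u : E3)) ⁻¹' (interior K ∩ K'ᶜ)) ≤
        volume (chord K (u : E3) x \ chord K' (u : E3) x) :=
      measure_mono fun t ht => ⟨show x + t • (u : E3) ∈ K from interior_subset ht.1, ht.2⟩
    rw [hz] at hle
    exact absurd hle (not_le.2 hpos)
  refine Subset.antisymm h2 ?_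
  have e := hK.1.closure_interior_eq_closure_of_nonempty_interior hK.2.2
  rw [hK.2.1.isClosed.closure_eq] at e
  rw [← e]
  exact closure_minimal h3 hK'.2.1.isClosed

/-! ### Classes of bodies -/

/-- `K` is invariant under the reflection in the plane `f = c` in the direction `w` -/
def SymmetryPlane (K : Set E3) : Prop :=
  ∃ (f : E3 →ₗ[ℝ] ℝ) (c : ℝ) (w : E3), f w = 1 ∧ ∀ x ∈ K, x - (2 * (f x - c)) • w ∈ K

/-- `K` lies on one side of the plane `f = c` and the projection to this plane in the direction
`w` maps `K` into `K` -/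
def Cap (K : Set E3) : Prop :=
  ∃ (f : E3 →ₗ[ℝ] ℝ) (c : ℝ) (w : E3), f w = 1 ∧ ∀ x ∈ K, c ≤ f x ∧ x - (f x - c) • w ∈ K

/-- the two directions -/
lemma directions (f : E3 →ₗ[ℝ] ℝ) (w : E3) (hw : f w = 1) :
    ∃ (u v : sphere (0 : E3) 1) (a : ℝ), 0 < a ∧ w = a • (u : E3) ∧ f (v : E3) = 0 ∧
      LinearIndependent ℝ ![(u : E3), (v : E3)] := by
  have hw0 : w ≠ 0 := by
    rintro rfl
    simp at hw
  have hwn : 0 < ‖w‖ := norm_pos_iff.2 hw0
  have hk : LinearMap.ker f ≠ ⊥ := by
    intro h
    have h1 := LinearMap.finrank_range_add_finrank_ker f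
    rw [h, finrank_bot] at h1
    have h2 : Module.finrank ℝ (LinearMap.range f) ≤ 1 := by
      have := Submodule.finrank_le (LinearMap.range f)
      simpa using this
    have h3 : Module.finrank ℝ E3 = 3 := by simp
    omega
  obtain ⟨z, hz, hz0⟩ := Submodule.exists_mem_ne_zero_of_ne_bot hk
  have hzn : 0 < ‖z‖ := norm_pos_iff.2 hz0
  refine ⟨⟨‖w‖⁻¹ • w, by simp [norm_smul, hwn.ne']⟩, ⟨‖z‖⁻¹ • z, by simp [norm_smul, hzn.ne']⟩,
    ‖w‖, hwn, ?_, ?_, ?_⟩
  · simp [smul_smul, hwn.ne']
  · have : f z = 0 := hz
    simp [this]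
  · refine LinearIndependent.pair_iff.2 ?_
    intro s t h
    have hf := congrArg f h
    have hz' : f z = 0 := hz
    simp only [map_add, map_smul, smul_eq_mul, hw, hz', mul_zero, add_zero, mul_one, map_zero,
      mul_eq_zero, inv_eq_zero, hwn.ne', or_false] at hf
    subst hf
    simp only [zero_smul, zero_add, smul_eq_zero, inv_eq_zero, hzn.ne', hz0, or_false] at h
    exact ⟨rfl, h⟩

lemma ordConnected_chord {K : Set E3} (hK : Convex ℝ K) (u x : E3) : OrdConnected (chord K u x) := by
  refine Convex.ordConnected ?_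
  intro p hp q hq a b ha hb hab
  have := hK hp hq ha hb hab
  have e : x + (a • p + b • q) • u = a • (x + p • u) + b • (x + q • u) := by
    simp only [smul_add, add_smul, smul_eq_mul, mul_smul]
    have hx : x = a • x + b • x := by rw [← add_smul, hab, one_smul]
    nth_rewrite 1 [hx]
    abel
  show x + (a • p + b • q) • u ∈ K
  rw [e]
  exact this

lemma comparable_symm {C D : Set ℝ} (hC : OrdConnected C) (hD : OrdConnected D) (k : ℝ)
    (h1 : ∀ t ∈ C, k - t ∈ C) (h2 : ∀ t ∈ D, k - t ∈ D) : C ⊆ D ∨ D ⊆ C := by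
  by_contra h
  rw [not_or] at h
  obtain ⟨hCD, hDC⟩ := h
  obtain ⟨p, hp, hp'⟩ := Set.not_subset.1 hCD
  obtain ⟨q, hq, hq'⟩ := Set.not_subset.1 hDC
  have p1 := h1 p hp
  have q1 := h2 q hq
  rcases le_total |k - 2 * p| |k - 2 * q| with h | h
  · apply hp'
    have := abs_le.1 (h.trans (le_refl _))
    rcases le_total (k - 2 * q) 0 with hs | hs
    · rw [abs_of_nonpos hs] at this
      exact hD.out q1 hq ⟨by linarith, by linarith⟩
    · rw [abs_of_nonneg hs] at this
      exact hD.out hq q1 ⟨by linarith, by linarith⟩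
  · apply hq'
    have := abs_le.1 (h.trans (le_refl _))
    rcases le_total (k - 2 * p) 0 with hs | hs
    · rw [abs_of_nonpos hs] at this
      exact hC.out p1 hp ⟨by linarith, by linarith⟩
    · rw [abs_of_nonneg hs] at this
      exact hC.out hp p1 ⟨by linarith, by linarith⟩

lemma comparable_cap {C D : Set ℝ} (hC : OrdConnected C) (hD : OrdConnected D) (m : ℝ)
    (h1 : ∀ t ∈ C, m ≤ t ∧ m ∈ C) (h2 : ∀ t ∈ D, m ≤ t ∧ m ∈ D) : C ⊆ D ∨ D ⊆ C := by
  by_contra h
  rw [not_or] at h
  obtain ⟨hCD, hDC⟩ := h
  obtain ⟨p, hp, hp'⟩ := Set.not_subset.1 hCD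
  obtain ⟨q, hq, hq'⟩ := Set.not_subset.1 hDC
  rcases le_total p q with h | h
  · exact hp' (hD.out (h2 q hq).2 hq ⟨(h1 p hp).1, h⟩)
  · exact hq' (hC.out (h1 p hp).2 hp ⟨(h2 q hq).1, h⟩)

theorem symmetryPlane_verified {K : Set E3} (hK : IsConvexBody K) (h : SymmetryPlane K) :
    ∃ u v : sphere (0 : E3) 1, Verifies u v K := by
  obtain ⟨f, c, w, hw, hs⟩ := h
  obtain ⟨u, v, a, ha, rfl, hv, huv⟩ := directions f w hw
  refine ⟨u, v, main huv hK ?_⟩
  have hu : a * f (u : E3) = 1 := by rw [map_smul, smul_eq_mul] at hw; exact hw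
  have key : ∀ x : E3, ∀ t ∈ chord K (u : E3) x, (-2 * a * (f x - c)) - t ∈ chord K (u : E3) x := by
    intro x t ht
    have h1 := hs _ ht
    have e : x + t • (u : E3) - (2 * (f (x + t • (u : E3)) - c)) • a • (u : E3) =
        x + ((-2 * a * (f x - c)) - t) • (u : E3) := by
      rw [smul_smul, add_sub_assoc, ← sub_smul, map_add, map_smul, smul_eq_mul]
      congr 2
      linear_combination (-2 * t) * hu
    rw [e] at h1
    exact h1
  intro x s
  refine comparable_symm (ordConnected_chord hK.1 _ _) (ordConnected_chord hK.1 _ _)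
    (-2 * a * (f x - c)) (key x) ?_
  have := key (x + s • (v : E3))
  simpa [hv] using this

theorem cap_verified {K : Set E3} (hK : IsConvexBody K) (h : Cap K) :
    ∃ u v : sphere (0 : E3) 1, Verifies u v K := by
  obtain ⟨f, c, w, hw, hs⟩ := h
  obtain ⟨u, v, a, ha, rfl, hv, huv⟩ := directions f w hw
  refine ⟨u, v, main huv hK ?_⟩
  have hu : a * f (u : E3) = 1 := by rw [map_smul, smul_eq_mul] at hw; exact hw
  have key : ∀ x : E3, ∀ t ∈ chord K (u : E3) x, -a * (f x - c) ≤ t ∧
      -a * (f x - c) ∈ chord K (u : E3) x := by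
    intro x t ht
    obtain ⟨h0, h1⟩ := hs _ ht
    have e : x + t • (u : E3) - (f (x + t • (u : E3)) - c) • a • (u : E3) =
        x + (-a * (f x - c)) • (u : E3) := by
      rw [smul_smul, add_sub_assoc, ← sub_smul, map_add, map_smul, smul_eq_mul]
      congr 2
      linear_combination (-t) * hu
    rw [e] at h1
    refine ⟨?_, h1⟩
    rw [map_add, map_smul, smul_eq_mul] at h0
    have h2 : a * c ≤ a * (f x + t * f (u : E3)) := mul_le_mul_of_nonneg_left h0 ha.le
    have h3 : a * (f x + t * f (u : E3)) = a * f x + t := by linear_combination t * hu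
    linarith
  intro x s
  refine comparable_cap (ordConnected_chord hK.1 _ _) (ordConnected_chord hK.1 _ _)
    (-a * (f x - c)) (key x) ?_
  have := key (x + s • (v : E3))
  simpa [hv] using this

end Pool.Agent.H61.TX
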