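import Mathlib

/-!
# Planar sets with nested chords are determined by two X-rays
-/

set_option autoImplicit false

open MeasureTheory Set
open scoped ENNReal

namespace Pool.Agent.H61.TX

/-- the section over the first coordinate -/
def sec (A : Set (ℝ × ℝ)) (s : ℝ) : Set ℝ := {t | (s, t) ∈ A}

/-- the section over the second coordinate -/
def row (A : Set (ℝ × ℝ)) (t : ℝ) : Set ℝ := {s | (s, t) ∈ A}

lemma mem_of_between {A : Set (ℝ × ℝ)} (hA : Convex ℝ A) {a c s t : ℝ} (ha : (a, t) ∈ A)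
    (hc : (c, t) ∈ A) (h1 : a ≤ s) (h2 : s ≤ c) : (s, t) ∈ A := by
  rcases h1.eq_or_lt with rfl | h1
  · exact ha
  rcases h2.eq_or_lt with rfl | h2
  · exact hc
  have hac : 0 < c - a := by linarith
  have h := hA ha hc (a := (c - s) / (c - a)) (b := (s - a) / (c - a))
    (div_nonneg (by linarith) hac.le) (div_nonneg (by linarith) hac.le)
    (by field_simp; ring)
  have e : ((c - s) / (c - a)) • ((a, t) : ℝ × ℝ) + ((s - a) / (c - a)) • ((c, t) : ℝ × ℝ)
      = (s, t) := by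
    refine Prod.ext ?_ ?_
    · simp only [Prod.smul_mk, Prod.mk_add_mk, smul_eq_mul]
      field_simp
      ring
    · simp only [Prod.smul_mk, Prod.mk_add_mk, smul_eq_mul]
      field_simp
      ring
  rwa [e] at h

lemma ordConnected_bad {A : Set (ℝ × ℝ)} (hA : Convex ℝ A) (T : Set ℝ)
    (nest : ∀ s s', sec A s ⊆ sec A s' ∨ sec A s' ⊆ sec A s) :
    OrdConnected {s | ¬ sec A s ⊆ T} := by
  refine ⟨?_⟩
  intro a ha c hc s hs hsT
  rcases nest a c with h | h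
  · apply ha
    intro t ht
    exact hsT (mem_of_between hA ht (h ht) hs.1 hs.2)
  · apply hc
    intro t ht
    exact hsT (mem_of_between hA (h ht) ht hs.1 hs.2)

lemma vol_left {B : Set (ℝ × ℝ)} (hB : MeasurableSet B) {S : Set ℝ} (hS : MeasurableSet S) :
    volume (B ∩ S ×ˢ (univ : Set ℝ)) = ∫⁻ s in S, volume (sec B s) := by
  rw [Measure.volume_eq_prod, Measure.prod_apply (hB.inter (hS.prod MeasurableSet.univ)),
    ← lintegral_indicator hS]
  refine lintegral_congr fun s => ?_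
  by_cases hs : s ∈ S
  · rw [indicator_of_mem hs]
    refine congrArg _ ?_
    ext t
    simp [sec, hs]
  · rw [indicator_of_notMem hs]
    have : Prod.mk s ⁻¹' (B ∩ S ×ˢ (univ : Set ℝ)) = ∅ := by
      ext t
      simp [hs]
    rw [this, measure_empty]

lemma vol_right {B : Set (ℝ × ℝ)} (hB : MeasurableSet B) {R : Set ℝ} (hR : MeasurableSet R) :
    volume (B ∩ (univ : Set ℝ) ×ˢ R) = ∫⁻ t in R, volume (row B t) := by
  rw [Measure.volume_eq_prod, Measure.prod_apply_symm (hB.inter (MeasurableSet.univ.prod hR)),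
    ← lintegral_indicator hR]
  refine lintegral_congr fun t => ?_
  by_cases ht : t ∈ R
  · rw [indicator_of_mem ht]
    refine congrArg _ ?_
    ext s
    simp [row, ht]
  · rw [indicator_of_notMem ht]
    have : (fun s => (s, t)) ⁻¹' (B ∩ (univ : Set ℝ) ×ˢ R) = ∅ := by
      ext s
      simp [ht]
    rw [this, measure_empty]

/-- If the chords of `A` over the first coordinate are nested, then a set with the same X-rays in
the two coordinate directions has its interior in `A`. -/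
theorem planar {A B : Set (ℝ × ℝ)} (hA : Convex ℝ A) (hAc : IsCompact A) (hB : IsClosed B)
    (hu : ∀ s, volume (sec B s) = volume (sec A s))
    (hv : ∀ t, volume (row B t) = volume (row A t))
    (nest : ∀ s s', sec A s ⊆ sec A s' ∨ sec A s' ⊆ sec A s) : interior B ⊆ A := by
  rintro ⟨s0, t0⟩ h0
  by_contra hn
  set T : Set ℝ := sec A s0 with hT
  have hTc : IsClosed T := hAc.isClosed.preimage (by fun_prop : Continuous fun t : ℝ => (s0, t))
  have ht0 : t0 ∈ Tᶜ := hn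
  -- a box around the point
  obtain ⟨U, hU, V, hV, hUV⟩ : ∃ U ∈ nhds s0, ∃ V ∈ nhds t0, U ×ˢ V ⊆ B := by
    have := mem_nhds_prod_iff.1 (mem_interior_iff_mem_nhds.1 h0)
    obtain ⟨U, hU, V, hV, h⟩ := this
    exact ⟨U, hU, V, hV, h⟩
  obtain ⟨a, b, hab, haU⟩ := mem_nhds_iff_exists_Ioo_subset.1 hU
  have hV' : V ∩ Tᶜ ∈ nhds t0 := Filter.inter_mem hV (hTc.isOpen_compl.mem_nhds ht0)
  obtain ⟨c, d, hcd, hcV⟩ := mem_nhds_iff_exists_Ioo_subset.1 hV'
  set S : Set ℝ := {s | ¬ sec A s ⊆ T} with hS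
  have hSo : OrdConnected S := ordConnected_bad hA T nest
  have hs0 : s0 ∉ S := by simp [hS, hT]
  have hSm : MeasurableSet S := hSo.measurableSet
  have hTm : MeasurableSet T := hTc.measurableSet
  have hBm : MeasurableSet B := hB.measurableSet
  have hAm : MeasurableSet A := hAc.isClosed.measurableSet
  have hTS : ∀ s ∈ S, T ⊆ sec A s := fun s hs => (nest s s0).resolve_left hs
  -- one side of `s0` is outside `S`
  obtain ⟨x, y, hxy, hIS, hIU⟩ : ∃ x y : ℝ, x < y ∧ Ioo x y ⊆ Sᶜ ∧ Ioo x y ⊆ U := by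
    by_cases h : ∃ s1 ∈ S, s1 < s0
    · obtain ⟨s1, h1, h2⟩ := h
      refine ⟨s0, b, hab.2, ?_, fun z hz => haU ⟨hab.1.trans hz.1, hz.2⟩⟩
      intro z hz hzS
      exact hs0 (hSo.out h1 hzS ⟨h2.le, hz.1.le⟩)
    · push Not at h
      refine ⟨a, s0, hab.1, ?_, fun z hz => haU ⟨hz.1, hz.2.trans hab.2⟩⟩
      intro z hz hzS
      exact absurd hz.2 (not_lt.2 (h z hzS))
  -- the four volumes
  have e1 : volume (B ∩ S ×ˢ (univ : Set ℝ)) = volume (A ∩ S ×ˢ (univ : Set ℝ)) := by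
    rw [vol_left hBm hSm, vol_left hAm hSm]
    exact lintegral_congr fun s => hu s
  have e2 : volume (B ∩ (univ : Set ℝ) ×ˢ Tᶜ) = volume (A ∩ (univ : Set ℝ) ×ˢ Tᶜ) := by
    rw [vol_right hBm hTm.compl, vol_right hAm hTm.compl]
    exact lintegral_congr fun t => hv t
  have d1 : ∀ C : Set (ℝ × ℝ), volume (C ∩ S ×ˢ (univ : Set ℝ)) =
      volume (C ∩ S ×ˢ T) + volume (C ∩ S ×ˢ Tᶜ) := by
    intro C
    rw [← measure_inter_add_sdiff (C ∩ S ×ˢ (univ : Set ℝ))
      (MeasurableSet.univ.prod hTm : MeasurableSet ((univ : Set ℝ) ×ˢ T))]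
    congr 2
    · ext p; simp; tauto
    · ext p; simp; tauto
  have d2 : ∀ C : Set (ℝ × ℝ), volume (C ∩ (univ : Set ℝ) ×ˢ Tᶜ) =
      volume (C ∩ S ×ˢ Tᶜ) + volume (C ∩ Sᶜ ×ˢ Tᶜ) := by
    intro C
    rw [← measure_inter_add_sdiff (C ∩ (univ : Set ℝ) ×ˢ Tᶜ)
      (hSm.prod MeasurableSet.univ : MeasurableSet (S ×ˢ (univ : Set ℝ)))]
    congr 2
    · ext p; simp; tauto
    · ext p; simp; tauto
  have f1 : A ∩ S ×ˢ T = S ×ˢ T := by
    refine inter_eq_right.2 ?_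
    rintro ⟨s, t⟩ ⟨hs, ht⟩
    exact hTS s hs ht
  have f2 : A ∩ Sᶜ ×ˢ Tᶜ = ∅ := by
    ext ⟨s, t⟩
    simp only [mem_inter_iff, mem_prod, mem_compl_iff, mem_empty_iff_false, iff_false]
    rintro ⟨h1, h2, h3⟩
    exact h3 (not_not.1 h2 h1)
  have fin : volume A < ⊤ := hAc.measure_lt_top
  have g1 := e1
  rw [d1 B, d1 A, f1] at g1
  have g2 := e2
  rw [d2 B, d2 A, f2, measure_empty, add_zero] at g2
  have b1 : volume (B ∩ S ×ˢ T) ≤ volume (S ×ˢ T) := measure_mono inter_subset_right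
  have a1 : volume (S ×ˢ T) ≠ ⊤ := by
    rw [← f1]
    exact ((measure_mono inter_subset_left).trans_lt fin).ne
  have a2 : volume (A ∩ S ×ˢ Tᶜ) ≠ ⊤ := ((measure_mono inter_subset_left).trans_lt fin).ne
  have b2 : volume (B ∩ S ×ˢ Tᶜ) ≠ ⊤ := by
    intro h
    rw [h, top_add] at g2
    exact a2 g2.symm
  have b3 : volume (B ∩ Sᶜ ×ˢ Tᶜ) = 0 := by
    rw [← g2] at g1
    have h1 : volume (B ∩ S ×ˢ T) + volume (B ∩ S ×ˢ Tᶜ) =
        volume (S ×ˢ T) + volume (B ∩ Sᶜ ×ˢ Tᶜ) + volume (B ∩ S ×ˢ Tᶜ) := by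
      rw [g1]; ring
    have h2 := (ENNReal.add_left_inj b2).1 h1
    have h3 : volume (S ×ˢ T) + volume (B ∩ Sᶜ ×ˢ Tᶜ) ≤ volume (S ×ˢ T) + 0 := by
      rw [← h2, add_zero]; exact b1
    exact nonpos_iff_eq_zero.1 ((ENNReal.add_le_add_iff_left a1).1 h3)
  have hbox : Ioo x y ×ˢ Ioo c d ⊆ B ∩ Sᶜ ×ˢ Tᶜ := by
    rintro ⟨s, t⟩ ⟨hs, ht⟩
    exact ⟨hUV ⟨hIU hs, (hcV ht).1⟩, hIS hs, (hcV ht).2⟩
  have hpos : 0 < volume (Ioo x y ×ˢ Ioo c d) := by
    rw [Measure.volume_eq_prod, Measure.prod_prod, Real.volume_Ioo, Real.volume_Ioo]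
    refine ENNReal.mul_pos ?_ ?_
    · simpa using hxy
    · simpa using hcd.1.trans hcd.2
  exact absurd (measure_mono hbox) (by rw [b3]; exact not_le.2 hpos)

end Pool.Agent.H61.TX
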